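import Mathlib

/-!
# An equistable graph that is not weakly CIS

Let `F` be the triangle-free graph on nine vertices `0, ..., 8` with the fourteen edges listed in
`ends`, and let `G` be the complement of the line graph of `F`: its vertices are the edges of `F`,
two of them being adjacent when they have no common end. The maximal stable sets of `G` are the
nine stars of `F`. The weights `wt / 158` give weight `1` to the stars and to no other set. Each
pair of edges at a vertex `v` of `F` lies in exactly one maximal stable set, the star of `v`; so a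
non-edge covering family contains all stars, and a clique meeting all of them would be a perfect
matching of `F`, which has nine vertices.
-/

set_option autoImplicit false

namespace Pool.Agent.Results.MP_59918e_co.NotWeaklyCIS

/-- `S` is a maximal stable set of `G`. -/
def MaxStable {V : Type} (G : SimpleGraph V) (S : Finset V) : Prop :=
  Maximal (fun T : Finset V => G.IsIndepSet (T : Set V)) S

/-- `C` is a maximal clique of `G`. -/
def MaxClique {V : Type} (G : SimpleGraph V) (C : Finset V) : Prop :=
  Maximal (fun T : Finset V => G.IsClique (T : Set V)) C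

/-- `G` is equistable: for some nonnegative vertex weights, the sets of total weight `1` are exactly
the maximal stable sets. -/
def Equistable {V : Type} (G : SimpleGraph V) : Prop :=
  ∃ φ : V → ℝ, (∀ x, 0 ≤ φ x) ∧ ∀ S : Finset V, MaxStable G S ↔ ∑ x ∈ S, φ x = 1

/-- `G` is weakly CIS: there are a family `𝒞` of maximal cliques containing every edge in a member
and a family `𝒮` of maximal stable sets containing every pair of distinct non-adjacent vertices in
a member such that each member of `𝒞` meets each member of `𝒮`. -/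
def WeaklyCIS {V : Type} (G : SimpleGraph V) : Prop :=
  ∃ 𝒞 𝒮 : Set (Finset V),
    (∀ C ∈ 𝒞, MaxClique G C) ∧ (∀ u v, G.Adj u v → ∃ C ∈ 𝒞, u ∈ C ∧ v ∈ C) ∧
    (∀ S ∈ 𝒮, MaxStable G S) ∧ (∀ u v, u ≠ v → ¬ G.Adj u v → ∃ S ∈ 𝒮, u ∈ S ∧ v ∈ S) ∧
    ∀ C ∈ 𝒞, ∀ S ∈ 𝒮, ∃ x, x ∈ C ∧ x ∈ S

/-- first ends of the fourteen edges of `F` -/
def e1 : Fin 14 → Fin 9 := ![0, 0, 0, 1, 1, 1, 2, 2, 3, 3, 3, 5, 5, 7]

/-- second ends of the fourteen edges of `F` -/
def e2 : Fin 14 → Fin 9 := ![1, 2, 7, 8, 4, 6, 4, 5, 4, 6, 7, 8, 6, 8]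

/-- the weights -/
def wt : Fin 14 → ℕ := ![41, 69, 48, 35, 46, 36, 52, 37, 60, 56, 42, 55, 66, 68]

/-- the edge `i` of `F` contains the vertex `v` -/
def inc (v : Fin 9) (i : Fin 14) : Bool := e1 i == v || e2 i == v

/-- the star of `v` -/
def star (v : Fin 9) : Finset (Fin 14) := Finset.univ.filter (fun i => inc v i = true)

/-- the complement of the line graph of `F` -/
def G : SimpleGraph (Fin 14) where
  Adj i j := ∀ v, ¬ (inc v i = true ∧ inc v j = true)
  symm := ⟨fun _ _ h v hv => h v ⟨hv.2, hv.1⟩⟩
  loopless := ⟨fun i h => h (e1 i) ⟨by simp [inc], by simp [inc]⟩⟩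

instance : DecidableRel G.Adj := fun i j =>
  inferInstanceAs (Decidable (∀ v, ¬ (inc v i = true ∧ inc v j = true)))

theorem mem_star {v : Fin 9} {i : Fin 14} : i ∈ star v ↔ inc v i = true := by simp [star]

/-- a stable set lies in a star -/
theorem stable_sub_star {S : Finset (Fin 14)} (hS : G.IsIndepSet (S : Set (Fin 14))) :
    ∃ v, S ⊆ star v := by
  have hS' : ∀ a ∈ S, ∀ b ∈ S, ∃ v, inc v a = true ∧ inc v b = true := by
    intro a ha b hb
    by_cases hab : a = b
    · subst hab; exact ⟨e1 a, by simp [inc], by simp [inc]⟩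
    · have := hS ha hb hab
      by_contra hne
      exact this (fun v hv => hne ⟨v, hv⟩)
  by_cases h0 : ∃ a ∈ S, ∃ b ∈ S, a ≠ b
  · obtain ⟨a, ha, b, hb, hab⟩ := h0
    obtain ⟨v, hva, hvb⟩ := hS' a ha b hb
    refine ⟨v, fun c hc => ?_⟩
    rw [mem_star]
    have key : ∀ v, ∀ a b c : Fin 14, a ≠ b → inc v a = true → inc v b = true →
        (inc (e1 a) c || inc (e2 a) c) = true → (inc (e1 b) c || inc (e2 b) c) = true →
        inc v c = true := by decide
    have key2 : ∀ a c : Fin 14, (∃ v, inc v a = true ∧ inc v c = true) →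
        (inc (e1 a) c || inc (e2 a) c) = true := by
      rintro a c ⟨v, h1, h2⟩
      simp only [inc, Bool.or_eq_true, beq_iff_eq] at h1
      rw [Bool.or_eq_true]
      rcases h1 with h1 | h1
      · left; rw [h1]; exact h2
      · right; rw [h1]; exact h2
    exact key v a b c hab hva hvb (key2 a c (hS' a ha c hc)) (key2 b c (hS' b hb c hc))
  · push Not at h0
    by_cases hne : S.Nonempty
    · obtain ⟨a, ha⟩ := hne
      refine ⟨e1 a, fun c hc => ?_⟩
      rw [← h0 a ha c hc, mem_star]
      simp [inc]
    · rw [Finset.not_nonempty_iff_eq_empty] at hne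
      exact ⟨0, by rw [hne]; exact Finset.empty_subset _⟩

theorem star_stable (v : Fin 9) : G.IsIndepSet (star v : Set (Fin 14)) := by
  intro a ha b hb _ hadj
  exact hadj v ⟨mem_star.mp ha, mem_star.mp hb⟩

theorem star_inj : ∀ v w : Fin 9, star v ⊆ star w → v = w := by decide

theorem maxStable_iff (S : Finset (Fin 14)) : MaxStable G S ↔ ∃ v, S = star v := by
  constructor
  · rintro ⟨h1, h2⟩
    obtain ⟨v, hv⟩ := stable_sub_star h1
    exact ⟨v, le_antisymm hv (h2 (star_stable v) hv)⟩
  · rintro ⟨v, rfl⟩
    refine ⟨star_stable v, fun T hT hvT => ?_⟩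
    obtain ⟨w, hw⟩ := stable_sub_star hT
    have := star_inj v w (le_trans hvT hw)
    subst this
    exact hw

/-- all 0-1 vectors `l` with `∑ l i * w i = t` -/
def sols : List ℕ → ℕ → List (List Bool)
  | [], t => if t = 0 then [[]] else []
  | w :: ws, t => (sols ws t).map (false :: ·) ++
      (if w ≤ t then (sols ws (t - w)).map (true :: ·) else [])

theorem mem_sols : ∀ (ws : List ℕ) (l : List Bool) (t : ℕ), l.length = ws.length →
    (List.zipWith (fun w b => if b = true then w else 0) ws l).sum = t → l ∈ sols ws t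
  | [], [], t, _, h => by
    simp only [List.zipWith_nil_left, List.sum_nil] at h
    simp [sols, ← h]
  | w :: ws, b :: l, t, hl, h => by
    have hl' : l.length = ws.length := by simpa using hl
    simp only [List.zipWith_cons_cons, List.sum_cons] at h
    rw [sols, List.mem_append]
    cases b
    · left
      rw [List.mem_map]
      refine ⟨l, mem_sols ws l t hl' (by simpa using h), rfl⟩
    · right
      simp only [if_true] at h
      rw [if_pos (by omega), List.mem_map]
      refine ⟨l, mem_sols ws l (t - w) hl' (by omega), rfl⟩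

theorem sols_star : ∀ l ∈ sols (List.ofFn wt) 158, ∃ v, l = List.ofFn (inc v) := by
  decide +kernel

theorem zipWith_ofFn' {n : ℕ} (a : Fin n → ℕ) (b : Fin n → Bool) :
    List.zipWith (fun w b => if b = true then w else 0) (List.ofFn a) (List.ofFn b) =
      List.ofFn (fun i => if b i = true then a i else 0) := by
  apply List.ext_getElem
  · simp
  · intro i h1 h2
    simp

theorem sum_eq (S : Finset (Fin 14)) (h : ∑ i ∈ S, wt i = 158) : ∃ v, S = star v := by
  have h1 : List.ofFn (fun i => decide (i ∈ S)) ∈ sols (List.ofFn wt) 158 := by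
    apply mem_sols
    · simp
    · rw [zipWith_ofFn', List.sum_ofFn, ← h, ← Finset.sum_filter]
      congr 1
      ext i; simp
  obtain ⟨v, hv⟩ := sols_star _ h1
  refine ⟨v, ?_⟩
  have h2 := List.ofFn_injective hv
  ext i
  rw [mem_star, ← congrFun h2 i]
  simp

theorem star_sum : ∀ v, ∑ i ∈ star v, wt i = 158 := by decide

theorem equistable_G : Equistable G := by
  refine ⟨fun i => (wt i : ℝ) / 158, fun i => by positivity, fun S => ?_⟩
  rw [maxStable_iff, ← Finset.sum_div, div_eq_one_iff_eq (by norm_num), ← Nat.cast_sum]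
  constructor
  · rintro ⟨v, rfl⟩
    rw [star_sum]; norm_num
  · intro h
    exact sum_eq S (by exact_mod_cast h)

theorem not_weaklyCIS_G : ¬ WeaklyCIS G := by
  rintro ⟨𝒞, 𝒮, h1, h2, h3, h4, h5⟩
  -- every star is in the second family
  have hstar : ∀ v, star v ∈ 𝒮 := by
    intro v
    have key : ∀ v : Fin 9, ∃ a b : Fin 14, a ≠ b ∧ inc v a = true ∧ inc v b = true ∧
        ∀ w, inc w a = true → inc w b = true → w = v := by decide
    obtain ⟨a, b, hab, ha, hb, hw⟩ := key v
    obtain ⟨S, hS, haS, hbS⟩ := h4 a b hab (fun h => h v ⟨ha, hb⟩)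
    obtain ⟨w, rfl⟩ := (maxStable_iff S).mp (h3 S hS)
    rw [← hw w (mem_star.mp haS) (mem_star.mp hbS)]
    exact hS
  obtain ⟨C, hC, -, -⟩ := h2 0 13 (by decide)
  have hcl := (h1 C hC).1
  have hone : ∀ v, (C.filter (fun i => inc v i = true)).card = 1 := by
    intro v
    obtain ⟨x, hxC, hx⟩ := h5 C hC (star v) (hstar v)
    rw [Finset.card_eq_one]
    refine ⟨x, ?_⟩
    ext y
    rw [Finset.mem_filter, Finset.mem_singleton]
    constructor
    · rintro ⟨hy, hyv⟩
      by_contra hne
      exact hcl hy hxC hne v ⟨hyv, mem_star.mp hx⟩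
    · rintro rfl
      exact ⟨hxC, mem_star.mp hx⟩
  have htwo : ∀ i : Fin 14, (Finset.univ.filter (fun v => inc v i = true)).card = 2 := by decide
  have hsum : ∑ v : Fin 9, (C.filter (fun i => inc v i = true)).card =
      ∑ i ∈ C, (Finset.univ.filter (fun v => inc v i = true)).card := by
    simp only [Finset.card_filter]
    rw [Finset.sum_comm]
  rw [Finset.sum_congr rfl (fun v _ => hone v), Finset.sum_congr rfl (fun i _ => htwo i)] at hsum
  simp at hsum
  omega

/-- There is a graph, on fourteen vertices, that is equistable but not weakly CIS. -/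
theorem result : ∃ G : SimpleGraph (Fin 14), Equistable G ∧ ¬ WeaklyCIS G :=
  ⟨G, equistable_G, not_weaklyCIS_G⟩

end Pool.Agent.Results.MP_59918e_co.NotWeaklyCIS
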